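import Mathlib
import Pool.Agent.H892.ZL.Stm2

set_option autoImplicit false

/-!
# The cross ratio seven does not occur for the second octad

No bracket of four distinct points of the second octad is divisible by `7`.
-/

namespace Pool.Agent.H23.ZL

open Matrix
open Pool.Agent.H892.ZL

/-- The determinant of four integral vectors, expanded by `2 × 2` minors. -/
def d4 (x y z w : Fin 4 → ℤ) : ℤ :=
  (x 0 * y 1 - x 1 * y 0) * (z 2 * w 3 - z 3 * w 2) - (x 0 * y 2 - x 2 * y 0) * (z 1 * w 3 - z 3 * w 1) +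
    (x 0 * y 3 - x 3 * y 0) * (z 1 * w 2 - z 2 * w 1) + (x 1 * y 2 - x 2 * y 1) * (z 0 * w 3 - z 3 * w 0) -
    (x 1 * y 3 - x 3 * y 1) * (z 0 * w 2 - z 2 * w 0) + (x 2 * y 3 - x 3 * y 2) * (z 0 * w 1 - z 1 * w 0)

theorem det_eq (x y z w : Fin 4 → ℤ) : (Matrix.of ![x, y, z, w]).det = d4 x y z w := by
  rw [Matrix.det_succ_row_zero]
  simp only [Fin.sum_univ_succ, Fin.sum_univ_zero, Matrix.det_fin_three, Matrix.submatrix_apply,
    Matrix.of_apply]
  unfold d4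
  simp [Fin.succAbove, Fin.succ, Fin.ext_iff]
  ring

theorem brk_eq (P : Fin 8 → Fin 4 → ℤ) (i j k l : Fin 8) :
    brk P i j k l = d4 (P i) (P j) (P k) (P l) := det_eq _ _ _ _

theorem no7 : ∀ i j k l : Fin 8, i ≠ j → i ≠ k → i ≠ l → j ≠ k → j ≠ l → k ≠ l →
    d4 (PBi i) (PBi j) (PBi k) (PBi l) % 7 ≠ 0 := by
  decide +kernel

theorem t_CR : S_CR := by
  intro i j k l m n hij hik hil him hin hjk hjl hjm hjn hkl hkm hkn hlm hln hmn h
  rw [brk_eq, brk_eq] at h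
  have h7 : Prime (7 : ℤ) := by norm_num
  have hd : (7 : ℤ) ∣ d4 (PBi i) (PBi j) (PBi k) (PBi l) * d4 (PBi i) (PBi j) (PBi m) (PBi n) :=
    ⟨_, h⟩
  rcases h7.dvd_or_dvd hd with h1 | h1
  · exact no7 i j k l hij hik hil hjk hjl hkl (Int.emod_eq_zero_of_dvd h1)
  · exact no7 i j m n hij him hin hjm hjn hmn (Int.emod_eq_zero_of_dvd h1)

theorem t_CRA : S_CRA := by
  unfold S_CRA
  rw [brk_eq, brk_eq, brk_eq, brk_eq]
  decide +kernel

end Pool.Agent.H23.ZL
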